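import Mathlib
import Pool.Agent.W7h60.QR.Str
import Pool.Agent.U181.CF.Fin
import Pool.Agent.U181.CF.Ten

set_option autoImplicit false

/-! Finite quotients of `Aut(F_n)` and `Out(F_n)` with a normal series whose factors have degree at
most two, or are centreless with trivial action of the commutators of transvections of one
generator, are congruence quotients. -/

namespace Pool.Agent.Results.MP_181555_al.ChiefFactorCriterion

open Pool.Agent.W7h60 Pool.Agent.W7h60.QQ Pool.Agent.W7h60.QR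
open Pool.Agent.Helper156.OF (Lt eAut rel_aut)
open Pool.Agent.TH271.CU (MM)
open Pool.Agent.Helper460_OutF (rr aut_ext rr_self rr_ne kil_ne)
open FreeGroup (of)
open scoped TensorProduct commutatorElement

universe u

/-- `τ` is the transvection `x i ↦ x i * x j` (with `i ≠ j`), fixing the other generators. -/
def IsTransvection {n : ℕ} (i j : Fin n) (τ : MulAut (FreeGroup (Fin n))) : Prop :=
  i ≠ j ∧ τ (FreeGroup.of i) = FreeGroup.of i * FreeGroup.of j ∧
    ∀ k, k ≠ i → τ (FreeGroup.of k) = FreeGroup.of k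

/-- `κ` is the commutator of the transvections `x i ↦ x i * x a` and `x i ↦ x i * x b` of the
generator `x i`: the automorphism `x i ↦ x i * [x a, x b]` with `i`, `a`, `b` distinct, fixing the
other generators. -/
def IsCommutatorTransvection {n : ℕ} (κ : MulAut (FreeGroup (Fin n))) : Prop :=
  ∃ i a b : Fin n, i ≠ a ∧ i ≠ b ∧ a ≠ b ∧
    κ (FreeGroup.of i) = FreeGroup.of i * ⁅FreeGroup.of a, FreeGroup.of b⁆ ∧
    ∀ k, k ≠ i → κ (FreeGroup.of k) = FreeGroup.of k

/-- `ψ` acts trivially on `F_n / C`. -/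
def TrivialMod {n : ℕ} (C : Subgroup (FreeGroup (Fin n))) (ψ : MulAut (FreeGroup (Fin n))) :
    Prop :=
  ∀ x : FreeGroup (Fin n), ψ x * x⁻¹ ∈ C

/-- `ψ` acts on `F_n / C` as an inner automorphism. -/
def InnerMod {n : ℕ} (C : Subgroup (FreeGroup (Fin n))) (ψ : MulAut (FreeGroup (Fin n))) : Prop :=
  ∃ g : FreeGroup (Fin n), ∀ x : FreeGroup (Fin n), ψ x * (g * x * g⁻¹)⁻¹ ∈ C

/-- the normal subgroup `N` of `Aut(F_n)` has finite index and is a congruence subgroup with
respect to `C`; if it contains the inner automorphisms, then also in `Out(F_n)` -/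
def CongruenceFor {n : ℕ} (C : Subgroup (FreeGroup (Fin n)))
    (N : Subgroup (MulAut (FreeGroup (Fin n)))) : Prop :=
  N.FiniteIndex ∧ (∀ ψ, TrivialMod C ψ → ψ ∈ N) ∧
    ((∀ g : FreeGroup (Fin n), MulAut.conj g ∈ N) → ∀ ψ, InnerMod C ψ → ψ ∈ N)

/-- The factor `N' / N` has degree at most two: `[τ₁, [τ₂, [τ₃, y]]]` lies in `N` for all `y` in
`N'` and all transvections `τ₁`, `τ₂`, `τ₃` with pairwise disjoint supports. -/
def DegreeTwo {n : ℕ} (N N' : Subgroup (MulAut (FreeGroup (Fin n)))) : Prop :=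
  ∀ (i₁ j₁ i₂ j₂ i₃ j₃ : Fin n) (τ₁ τ₂ τ₃ : MulAut (FreeGroup (Fin n))),
    IsTransvection i₁ j₁ τ₁ → IsTransvection i₂ j₂ τ₂ → IsTransvection i₃ j₃ τ₃ →
    [i₁, j₁, i₂, j₂, i₃, j₃].Nodup → ∀ y ∈ N', ⁅τ₁, ⁅τ₂, ⁅τ₃, y⁆⁆⁆ ∈ N

/-- The factor `N' / N` has trivial centre and the commutators of transvections of one generator
act trivially on it. -/
def CentrelessFixed {n : ℕ} (N N' : Subgroup (MulAut (FreeGroup (Fin n)))) : Prop :=
  (∀ z ∈ N', (∀ y ∈ N', ⁅z, y⁆ ∈ N) → z ∈ N) ∧
    ∀ κ : MulAut (FreeGroup (Fin n)), IsCommutatorTransvection κ → ∀ y ∈ N', ⁅κ, y⁆ ∈ N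

/-- There is a series `N = c 0 ≤ c 1 ≤ ⋯ ≤ c r` of normal subgroups of `Aut(F_n)` whose last term
contains the commutators of transvections of one generator (for instance `c r = ⊤`), and whose
factors have degree at most two or are centreless with trivial action of these commutators. -/
def HasLowSeries {n : ℕ} (N : Subgroup (MulAut (FreeGroup (Fin n)))) : Prop :=
  ∃ (r : ℕ) (c : ℕ → Subgroup (MulAut (FreeGroup (Fin n)))), c 0 = N ∧
    (∀ κ, IsCommutatorTransvection κ → κ ∈ c r) ∧ (∀ i ≤ r, (c i).Normal) ∧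
    ∀ i < r, c i ≤ c (i + 1) ∧ (DegreeTwo (c i) (c (i + 1)) ∨ CentrelessFixed (c i) (c (i + 1)))

/-- The `A`-module `W` is generated by `d` elements. -/
def GeneratedBy (d : ℕ) (A : Type u) [CommRing A] (W : Type u) [AddCommGroup W] [Module A W] :
    Prop :=
  ∃ g : Fin d → W, Submodule.span A (Set.range g) = ⊤

/-- The factor `N' / N`, with the conjugation action of `Aut(F_n)`, is isomorphic to a section (a
quotient of an invariant subgroup) of the tensor product of two modules over a commutative ring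
`A` which are generated by `d` elements and on which `Aut(F_n)` acts by `A`-linear maps. The
isomorphism is given by the invariant relation `R`. -/
def TensorSection {n : ℕ} (d : ℕ) (N N' : Subgroup (MulAut (FreeGroup (Fin n)))) : Prop :=
  ∃ (A : Type u) (_ : CommRing A) (W : Type u) (_ : AddCommGroup W) (_ : Module A W)
    (W' : Type u) (_ : AddCommGroup W') (_ : Module A W')
    (σ : MulAut (FreeGroup (Fin n)) →* Module.End A W)
    (σ' : MulAut (FreeGroup (Fin n)) →* Module.End A W')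
    (R : Subgroup (Multiplicative (W ⊗[A] W') × MulAut (FreeGroup (Fin n)))),
    GeneratedBy d A W ∧ GeneratedBy d A W' ∧
    (∀ φ w y, (Multiplicative.ofAdd w, y) ∈ R →
      (Multiplicative.ofAdd (TensorProduct.map (σ φ) (σ' φ) w), φ * y * φ⁻¹) ∈ R) ∧
    (∀ y ∈ N', ∃ w, (Multiplicative.ofAdd w, y) ∈ R) ∧ ∀ y, (1, y) ∈ R → y ∈ N

theorem eq_rr {n : ℕ} {i j : Fin n} {τ : MulAut (FreeGroup (Fin n))}
    (h : IsTransvection i j τ) : τ = rr i (of j) := by
  obtain ⟨h1, h2, h3⟩ := h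
  apply aut_ext
  intro k
  by_cases hk : k = i
  · subst hk
    rw [rr_self, kil_ne (Ne.symm h1), h2]
  · rw [rr_ne hk, h3 k hk]

theorem is_rr {n : ℕ} {i j : Fin n} (h : i ≠ j) : IsTransvection i j (rr i (of j)) :=
  ⟨h, by rw [rr_self, kil_ne (Ne.symm h)], fun _ hk => rr_ne hk _⟩

theorem eq_cm {n : ℕ} {κ : MulAut (FreeGroup (Fin n))} (h : IsCommutatorTransvection κ) :
    ∃ i a b : Fin n, i ≠ a ∧ i ≠ b ∧ a ≠ b ∧ κ = rr i ⁅of a, of b⁆ := by
  obtain ⟨i, a, b, h1, h2, h3, h4, h5⟩ := h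
  refine ⟨i, a, b, h1, h2, h3, ?_⟩
  apply aut_ext
  intro k
  by_cases hk : k = i
  · subst hk
    rw [rr_self, map_commutatorElement, kil_ne (Ne.symm h1), kil_ne (Ne.symm h2), h4]
  · rw [rr_ne hk, h5 k hk]

theorem is_cm {n : ℕ} {i a b : Fin n} (h1 : i ≠ a) (h2 : i ≠ b) (h3 : a ≠ b) :
    IsCommutatorTransvection (rr i ⁅of a, of b⁆) :=
  ⟨i, a, b, h1, h2, h3, by
    rw [rr_self, map_commutatorElement, kil_ne (Ne.symm h1), kil_ne (Ne.symm h2)],
    fun _ hk => rr_ne hk _⟩

theorem congruence_of {n : ℕ} {C : Subgroup (FreeGroup (Fin n))} (hC : C.Characteristic)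
    (hf : C.FiniteIndex) {N : Subgroup (MulAut (FreeGroup (Fin n)))}
    (h : ∀ ψ : MulAut (FreeGroup (Fin n)), TrivialMod C ψ → ψ ∈ N) : CongruenceFor C N := by
  refine ⟨fin_index hC hf h, h, ?_⟩
  rintro hinn ψ ⟨g, hg⟩
  have h1 : ψ * (MulAut.conj g)⁻¹ ∈ N := by
    apply h
    intro x
    have := hg (g⁻¹ * x * g)
    rw [show g * (g⁻¹ * x * g) * g⁻¹ = x by group] at this
    have e : (ψ * (MulAut.conj g)⁻¹) x = ψ (g⁻¹ * x * g) := by
      rw [← map_inv, MulAut.mul_apply, MulAut.conj_apply, inv_inv]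
    rw [e]
    exact this
  have h2 := N.mul_mem h1 (hinn g)
  rwa [inv_mul_cancel_right] at h2

theorem char_inf {n : ℕ} {C D : Subgroup (FreeGroup (Fin n))} (hC : C.Characteristic)
    (hD : D.Characteristic) : (C ⊓ D).Characteristic := by
  rw [Subgroup.characteristic_iff_le_comap] at hC hD ⊢
  intro φ x hx
  exact ⟨hC φ hx.1, hD φ hx.2⟩

/-- the intersection of the kernels of all homomorphisms to `H` -/
def HH (n : ℕ) (H : Type) [Group H] : Subgroup (FreeGroup (Fin n)) :=
  ⨅ f : FreeGroup (Fin n) →* H, f.ker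

theorem mem_HH {n : ℕ} {H : Type} [Group H] {x : FreeGroup (Fin n)} :
    x ∈ HH n H ↔ ∀ f : FreeGroup (Fin n) →* H, f x = 1 := by
  unfold HH
  rw [Subgroup.mem_iInf]
  rfl

theorem HH_char {n : ℕ} {H : Type} [Group H] : (HH n H).Characteristic := by
  rw [Subgroup.characteristic_iff_le_comap]
  intro φ x hx
  rw [Subgroup.mem_comap]
  rw [mem_HH] at hx ⊢
  exact fun f => hx (f.comp φ.toMonoidHom)

theorem HH_fin {n : ℕ} {H : Type} [Group H] [Finite H] : (HH n H).FiniteIndex := by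
  have : Finite (FreeGroup (Fin n) →* H) :=
    Finite.of_equiv _ (FreeGroup.lift (α := Fin n) (β := H))
  unfold HH
  exact Subgroup.finiteIndex_iInf fun f => inferInstance

theorem low {n : ℕ} (h6 : 6 ≤ n) {N : Subgroup (MulAut (FreeGroup (Fin n)))}
    (h : HasLowSeries N) : ∀ i a b : Fin n, i ≠ a → i ≠ b → a ≠ b → rr i ⁅of a, of b⁆ ∈ N := by
  obtain ⟨r, c, h0, hr, hn, hs⟩ := h
  have key : ∀ k, k ≤ r → ∀ i a b : Fin n, i ≠ a → i ≠ b → a ≠ b →
      rr i ⁅of a, of b⁆ ∈ c (r - k) := by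
    intro k
    induction k with
    | zero => exact fun _ i a b h1 h2 h3 => hr _ (is_cm h1 h2 h3)
    | succ k ih =>
      intro hk
      have ih' := ih (by omega)
      obtain ⟨j, hj⟩ : ∃ j, r - (k + 1) = j := ⟨_, rfl⟩
      have hj1 : r - k = j + 1 := by omega
      rw [hj1] at ih'
      rw [hj]
      obtain ⟨-, h1 | ⟨h1, h2⟩⟩ := hs j (by omega)
      · apply Pool.Agent.U181.CF.key (by rw [Fintype.card_fin]; exact h6) (hn j (by omega))
          (hn (j + 1) (by omega)) ih'
        intro a b c' d x y q1 q2 q3 q4 q5 q6 q7 q8 q9 q10 q11 q12 q13 q14 q15 v hv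
        apply h1 a c' b d y x _ _ _ (is_rr q2) (is_rr q7) (is_rr (Ne.symm q15)) _ v hv
        simp only [List.nodup_cons, List.mem_cons, List.not_mem_nil, or_false, not_or,
          List.nodup_nil, not_false_eq_true, and_true]
        exact ⟨⟨q2, q1, q3, q5, q4⟩, ⟨Ne.symm q6, q10, q12, q11⟩, ⟨q7, q9, q8⟩, ⟨q14, q13⟩,
          Ne.symm q15⟩
      · intro i a b k1 k2 k3
        exact h1 _ (ih' i a b k1 k2 k3) fun y hy => h2 _ (is_cm k1 k2 k3) y hy
  have := key r le_rfl
  rwa [Nat.sub_self, h0] at this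

theorem deg {n d : ℕ} (hd : Bd n d) {N N' : Subgroup (MulAut (FreeGroup (Fin n)))}
    (h : TensorSection.{u} d N N') : DegreeTwo N N' := by
  obtain ⟨A, _, W, _, _, W', _, _, σ, σ', R, ⟨g, hg⟩, ⟨g', hg'⟩, h1, h2, h3⟩ := h
  have H : DRel σ := general hd g hg σ
  have H' : DRel σ' := general hd g' hg' σ'
  have hN : ∀ (i j : Fin n) (τ : MulAut (FreeGroup (Fin n))), IsTransvection i j τ →
      ∀ (w : W ⊗[A] W') (y : MulAut (FreeGroup (Fin n))), (Multiplicative.ofAdd w, y) ∈ R →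
        (Multiplicative.ofAdd
          (QQ.N (Pool.Agent.U181.CF.tens σ σ') ((i, true) : Lt (Fin n)) (j, true) w),
            ⁅τ, y⁆) ∈ R := by
    intro i j τ hτ w y hw
    have h4 := R.mul_mem (h1 τ w y hw) (R.inv_mem hw)
    have e1 : τ = eAut ((i, true) : Lt (Fin n)) (j, true) := by
      rw [Pool.Agent.U181.CF.e_rr hτ.1]
      exact eq_rr hτ
    have e2 : ((Multiplicative.ofAdd (TensorProduct.map (σ τ) (σ' τ) w), τ * y * τ⁻¹) *
        (Multiplicative.ofAdd w, y)⁻¹ : Multiplicative (W ⊗[A] W') × MulAut (FreeGroup (Fin n))) =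
        (Multiplicative.ofAdd
          (QQ.N (Pool.Agent.U181.CF.tens σ σ') ((i, true) : Lt (Fin n)) (j, true) w), ⁅τ, y⁆) := by
      subst e1
      apply Prod.ext
      · show Multiplicative.ofAdd _ * (Multiplicative.ofAdd w)⁻¹ = Multiplicative.ofAdd _
        rw [← ofAdd_neg, ← ofAdd_add, ← sub_eq_add_neg]
        rfl
      · rfl
    rw [e2] at h4
    exact h4
  intro i₁ j₁ i₂ j₂ i₃ j₃ τ₁ τ₂ τ₃ t1 t2 t3 hnd y hy
  simp only [List.nodup_cons, List.mem_cons, List.not_mem_nil, or_false, not_or,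
    List.nodup_nil, not_false_eq_true, and_true] at hnd
  obtain ⟨⟨p1, p2, p3, p4, p5⟩, ⟨p6, p7, p8, p9⟩, ⟨p10, p11, p12⟩, ⟨p13, p14⟩, p15⟩ := hnd
  obtain ⟨w, hw⟩ := h2 y hy
  have h5 := hN _ _ _ t1 _ _ (hN _ _ _ t2 _ _ (hN _ _ _ t3 _ _ hw))
  have h6 := LinearMap.congr_fun (Pool.Agent.U181.CF.tens_tri H H'
    (x1 := (i₁, true)) (a1 := (j₁, true)) (x2 := (i₂, true)) (a2 := (j₂, true))
    (x3 := (i₃, true)) (a3 := (j₃, true)) ⟨p1, p2, p3, p6, p7, p10⟩ ⟨p1, p4, p5, p8, p9, p15⟩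
    ⟨p10, p11, p12, p13, p14, p15⟩) w
  apply h3
  rw [show Multiplicative.ofAdd (QQ.N (Pool.Agent.U181.CF.tens σ σ') ((i₁, true) : Lt (Fin n))
    (j₁, true) (QQ.N (Pool.Agent.U181.CF.tens σ σ') ((i₂, true) : Lt (Fin n)) (j₂, true)
    (QQ.N (Pool.Agent.U181.CF.tens σ σ') ((i₃, true) : Lt (Fin n)) (j₃, true) w))) =
    Multiplicative.ofAdd (0 : W ⊗[A] W') from congrArg _ h6] at h5
  exact h5

/-- (1) Let `n ≥ 6` and `m > 0`. There is a characteristic subgroup `C` of finite index in `F_n`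
such that every normal subgroup `N` of `Aut(F_n)` which contains the `m`-th powers of the
transvections and has a series `N = c 0 ≤ ⋯ ≤ c r` of normal subgroups of `Aut(F_n)`, with
`c r = Aut(F_n)` or only containing the automorphisms `x i ↦ x i * [x a, x b]`, whose factors have
degree at most two or are centreless with trivial action of these automorphisms, is a congruence
subgroup with respect to `C`, also in `Out(F_n)` if it contains the inner automorphisms.
(2) Let `d < binom (n / 2 - 5) 2`, or `48 ≤ n` and `d < binom (n - 6) 2`. Factors isomorphic to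
sections of tensor products of two modules with `d` generators over a commutative ring, with linear
actions of `Aut(F_n)`, have degree at most two, and the automorphisms `x i ↦ x i * [x a, x b]` act
trivially on modules with `d` generators. -/
theorem result :
    (∀ n m : ℕ, 6 ≤ n → 0 < m → ∃ C : Subgroup (FreeGroup (Fin n)),
      C.Characteristic ∧ C.FiniteIndex ∧
      ∀ N : Subgroup (MulAut (FreeGroup (Fin n))), N.Normal → HasLowSeries N →
        (∀ i j τ, IsTransvection i j τ → τ ^ m ∈ N) → CongruenceFor C N) ∧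
    ∀ n d : ℕ, (d < (n / 2 - 5).choose 2 ∨ (48 ≤ n ∧ d < (n - 6).choose 2)) →
      (∀ N N' : Subgroup (MulAut (FreeGroup (Fin n))), TensorSection.{u} d N N' →
        DegreeTwo N N') ∧
      ∀ (A : Type u) [CommRing A] (W : Type u) [AddCommGroup W] [Module A W], GeneratedBy d A W →
        ∀ (σ : MulAut (FreeGroup (Fin n)) →* Module.End A W) (κ : MulAut (FreeGroup (Fin n))),
          IsCommutatorTransvection κ → σ κ = 1 := by
  refine ⟨?_, ?_⟩
  · intro n m h6 hm
    have : NeZero m := ⟨hm.ne'⟩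
    have : NeZero (Pool.Agent.U181.CF.lev m) := ⟨(Pool.Agent.U181.CF.lev_pos hm).ne'⟩
    have hC : (HH n (Pool.Agent.Helper460_CSP.Hs (ZMod (Pool.Agent.U181.CF.lev m))) ⊓
        CC n m).Characteristic := char_inf HH_char CC_char
    have hf1 : (HH n (Pool.Agent.Helper460_CSP.Hs (ZMod (Pool.Agent.U181.CF.lev m)))).FiniteIndex :=
      HH_fin
    have hf2 : (CC n m).FiniteIndex := CC_fin
    refine ⟨HH n (Pool.Agent.Helper460_CSP.Hs (ZMod (Pool.Agent.U181.CF.lev m))) ⊓ CC n m, hC,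
      inferInstance, ?_⟩
    intro N hN hs hp
    apply congruence_of hC inferInstance
    intro ψ hψ
    have h1 : Pool.Agent.U181.CF.N0 n m ≤ N := Pool.Agent.U181.CF.N0_le hN (low h6 hs)
      fun i j hij => hp i j _ (is_rr hij)
    apply h1
    apply Pool.Agent.U181.CF.mem_N0 (by omega) hm
    · intro f x
      have h2 := mem_HH.1 (hψ x).1 f
      rwa [map_mul, map_inv, mul_inv_eq_one] at h2
    · intro i
      have h2 := mem_CC.1 (hψ (of i)).2 mg
      rwa [map_mul, map_inv, mul_inv_eq_one] at h2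
  · intro n d hd
    have hd' : Bd n d := hd
    have h14 := hd'.card
    refine ⟨fun N N' h => deg hd' h, ?_⟩
    rintro A _ W _ _ ⟨g, hg⟩ σ κ hκ
    obtain ⟨i, a, b, h1, h2, h3, rfl⟩ := eq_cm hκ
    have H : DRel σ := general hd' g hg σ
    have hcard : Fintype.card (Fin n) = n := Fintype.card_fin n
    have S : SRel σ := H.srel (by omega)
    rw [← Pool.Agent.U181.CF.mm_rr h1 h2]
    exact S.rho_MM (by omega) (x := (i, true)) (y := (a, true)) (z := (b, true)) h1 h2 h3

end Pool.Agent.Results.MP_181555_al.ChiefFactorCriterion
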