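import Mathlib
import Pool.Agent.W7h60.QQ.Fin
import Pool.Agent.W7h60.QR.Ring
import Pool.Agent.W7h60.QR.Cong
import Pool.Agent.U181.SC.Chain

set_option autoImplicit false

/-! Actions of `Aut(F_n)` on abelian groups of arbitrary size which are filtered by sections of
modules with fewer than about `n ^ 2 / 2` generators over commutative rings. -/

namespace Pool.Agent.Results.MP_181555_al.SmallCompositionFactors

open Pool.Agent.W7h60.QQ Pool.Agent.W7h60.QR Pool.Agent.Helper156.OF

universe u v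

/-- `τ` is the transvection `x i ↦ x i * x j` (with `i ≠ j`), fixing the other generators. -/
def IsTransvection {n : ℕ} (i j : Fin n) (τ : MulAut (FreeGroup (Fin n))) : Prop :=
  i ≠ j ∧ τ (FreeGroup.of i) = FreeGroup.of i * FreeGroup.of j ∧
    ∀ k, k ≠ i → τ (FreeGroup.of k) = FreeGroup.of k

/-- `ψ` acts trivially on `F_n / C`. -/
def TrivialMod {n : ℕ} (C : Subgroup (FreeGroup (Fin n))) (ψ : MulAut (FreeGroup (Fin n))) :
    Prop :=
  ∀ x : FreeGroup (Fin n), ψ x * x⁻¹ ∈ C

/-- `ψ` acts on `F_n / C` as an inner automorphism. -/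
def InnerMod {n : ℕ} (C : Subgroup (FreeGroup (Fin n))) (ψ : MulAut (FreeGroup (Fin n))) : Prop :=
  ∃ g : FreeGroup (Fin n), ∀ x : FreeGroup (Fin n), ψ x * (g * x * g⁻¹)⁻¹ ∈ C

/-- the normal subgroup `N` of `Aut(F_n)` has finite index and is a congruence subgroup with
respect to `C`; if it contains the inner automorphisms, then also in `Out(F_n)` -/
def CongruenceFor {n : ℕ} (C : Subgroup (FreeGroup (Fin n)))
    (N : Subgroup (MulAut (FreeGroup (Fin n)))) : Prop :=
  N.FiniteIndex ∧ (∀ ψ, TrivialMod C ψ → ψ ∈ N) ∧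
    ((∀ g : FreeGroup (Fin n), MulAut.conj g ∈ N) → ∀ ψ, InnerMod C ψ → ψ ∈ N)

/-- The subgroup `S` of `M` is invariant under the action `f` of `Aut(F_n)`. -/
def Invariant {n : ℕ} {M : Type v} [AddCommGroup M]
    (f : MulAut (FreeGroup (Fin n)) →* (M ≃ₗ[ℤ] M)) (S : AddSubgroup M) : Prop :=
  ∀ φ, ∀ v ∈ S, f φ v ∈ S

/-- For subgroups `S ≤ T` of `M`, invariant under the action `f` of `Aut(F_n)`: the quotient
`T / S` is isomorphic to a section (a quotient of an invariant subgroup) of a module `W` over a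
commutative ring `A` which is generated by `d` elements and on which `Aut(F_n)` acts by `A`-linear
maps. The isomorphism is given by the invariant additive relation `R` between `W` and `M`. -/
def SmallSection {n : ℕ} {M : Type v} [AddCommGroup M] (d : ℕ)
    (f : MulAut (FreeGroup (Fin n)) →* (M ≃ₗ[ℤ] M)) (S T : AddSubgroup M) : Prop :=
  ∃ (A : Type u) (_ : CommRing A) (W : Type u) (_ : AddCommGroup W) (_ : Module A W)
    (σ : MulAut (FreeGroup (Fin n)) →* Module.End A W) (R : AddSubgroup (W × M)),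
    (∃ g : Fin d → W, Submodule.span A (Set.range g) = ⊤) ∧
    (∀ φ, ∀ p ∈ R, (σ φ p.1, f φ p.2) ∈ R) ∧ (∀ v ∈ T, ∃ w, (w, v) ∈ R) ∧
    ∀ v, (0, v) ∈ R → v ∈ S

/-- `M` has a finite chain of invariant subgroups with small sections. -/
def SmallChain {n : ℕ} {M : Type v} [AddCommGroup M] (d : ℕ)
    (f : MulAut (FreeGroup (Fin n)) →* (M ≃ₗ[ℤ] M)) : Prop :=
  ∃ (r : ℕ) (c : ℕ → AddSubgroup M), c 0 = ⊥ ∧ c r = ⊤ ∧ (∀ i ≤ r, Invariant f (c i)) ∧
    ∀ i < r, c i ≤ c (i + 1) ∧ SmallSection.{u} d f (c i) (c (i + 1))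

/-- Every proper invariant subgroup `S` of `M` lies in a larger invariant subgroup `T` with small
section `T / S` (infinite ascending chains). -/
def SmallAscending {n : ℕ} {M : Type v} [AddCommGroup M] (d : ℕ)
    (f : MulAut (FreeGroup (Fin n)) →* (M ≃ₗ[ℤ] M)) : Prop :=
  ∀ S : AddSubgroup M, Invariant f S → S ≠ ⊤ →
    ∃ T : AddSubgroup M, Invariant f T ∧ S < T ∧ SmallSection.{u} d f S T

/-- Every non-zero invariant subgroup `T` of `M` contains a smaller invariant subgroup `S` with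
small section `T / S` (infinite descending chains). -/
def SmallDescending {n : ℕ} {M : Type v} [AddCommGroup M] (d : ℕ)
    (f : MulAut (FreeGroup (Fin n)) →* (M ≃ₗ[ℤ] M)) : Prop :=
  ∀ T : AddSubgroup M, Invariant f T → T ≠ ⊥ →
    ∃ S : AddSubgroup M, Invariant f S ∧ S < T ∧ SmallSection.{u} d f S T

theorem congruence_of {n : ℕ} {C : Subgroup (FreeGroup (Fin n))} (hC : C.Characteristic)
    (hf : C.FiniteIndex) {N : Subgroup (MulAut (FreeGroup (Fin n)))}
    (h : ∀ ψ : MulAut (FreeGroup (Fin n)), TrivialMod C ψ → ψ ∈ N) : CongruenceFor C N := by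
  refine ⟨fin_index hC hf h, h, ?_⟩
  rintro hinn ψ ⟨g, hg⟩
  have h1 : ψ * (MulAut.conj g)⁻¹ ∈ N := by
    apply h
    intro x
    have := hg (g⁻¹ * x * g)
    rw [show g * (g⁻¹ * x * g) * g⁻¹ = x by group] at this
    have e : (ψ * (MulAut.conj g)⁻¹) x = ψ (g⁻¹ * x * g) := by
      rw [← map_inv, MulAut.mul_apply, MulAut.conj_apply, inv_inv]
    rw [e]
    exact this
  have h2 := N.mul_mem h1 (hinn g)
  rwa [inv_mul_cancel_right] at h2

theorem one_add_pow {B : Type*} [Ring B] {z : B} (hz : z * z = 0) (k : ℕ) :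
    (1 + z) ^ k = 1 + (k : ℤ) • z := by
  induction k with
  | zero => simp
  | succ k ih =>
    rw [pow_succ, ih, mul_add, add_mul, add_mul, smul_mul_assoc, smul_mul_assoc, hz, smul_zero,
      one_mul, one_mul, add_zero, mul_one]
    push_cast
    rw [add_smul, one_smul]
    abel

theorem char_inf {n : ℕ} {C D : Subgroup (FreeGroup (Fin n))} (hC : C.Characteristic)
    (hD : D.Characteristic) : (C ⊓ D).Characteristic := by
  rw [Subgroup.characteristic_iff_le_comap] at hC hD ⊢
  intro φ x hx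
  exact ⟨hC φ hx.1, hD φ hx.2⟩

theorem mg_of_mem {n p : ℕ} {ψ : MulAut (FreeGroup (Fin n))} (h : ∀ x, ψ x * x⁻¹ ∈ CC n p) :
    ∀ i, mg (R := ZMod p) (ψ (FreeGroup.of i)) = mg (FreeGroup.of i) := by
  intro i
  have := mem_CC.1 (h (FreeGroup.of i)) mg
  rw [map_mul, map_inv, mul_inv_eq_one] at this
  exact this

theorem mg_of_lcs {n p : ℕ} {ψ : MulAut (FreeGroup (Fin n))}
    (h : TrivialMod ⁅⁅(⊤ : Subgroup (FreeGroup (Fin n))), (⊤ : Subgroup (FreeGroup (Fin n)))⁆,
      (⊤ : Subgroup (FreeGroup (Fin n)))⁆ ψ) :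
    ∀ i, mg (R := ZMod p) (ψ (FreeGroup.of i)) = mg (FreeGroup.of i) := by
  intro i
  have : mg (R := ZMod p) (ψ (FreeGroup.of i) * (FreeGroup.of i)⁻¹) = 1 :=
    mg_lcs (h (FreeGroup.of i))
  rw [map_mul, map_inv, mul_inv_eq_one] at this
  exact this

/-- the ring homomorphism to the endomorphisms -/
def rho {n : ℕ} {M : Type v} [AddCommGroup M] (f : MulAut (FreeGroup (Fin n)) →* (M ≃ₗ[ℤ] M)) :
    MulAut (FreeGroup (Fin n)) →* AddMonoid.End M where
  toFun φ := (f φ).toLinearMap.toAddMonoidHom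
  map_one' := by
    apply AddMonoidHom.ext
    intro v
    show f 1 v = v
    rw [map_one]
    rfl
  map_mul' φ ψ := by
    apply AddMonoidHom.ext
    intro v
    show f (φ * ψ) v = f φ (f ψ v)
    rw [map_mul]
    rfl

theorem kl_of {n d : ℕ} {M : Type v} [AddCommGroup M] (hd : Bd n d)
    (f : MulAut (FreeGroup (Fin n)) →* (M ≃ₗ[ℤ] M)) {S T : AddSubgroup M}
    (h : SmallSection.{u} d f S T) : Pool.Agent.U181.SC.Kl (rho f) S T := by
  obtain ⟨A, _, W, _, _, σ, R, ⟨g, hg⟩, h1, h2, h3⟩ := h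
  have H : DRel σ := general hd g hg σ
  have hN : ∀ (x a : Lt (Fin n)) (p : W × M), p ∈ R → (N σ x a p.1, N (rho f) x a p.2) ∈ R :=
    fun x a p hp => R.sub_mem (h1 _ p hp) hp
  intro x a y b ⟨q1, q2, q3, q4, q5, q6⟩ v hv
  obtain ⟨w, hw⟩ := h2 v hv
  apply h3
  have h5 := hN x a _ (hN y b _ hw)
  have h6 : N σ x a (N σ y b w) = 0 := LinearMap.congr_fun (H.dj x a y b q1 q2 q3 q4 q5 q6) w
  rw [h6] at h5
  exact h5

theorem drel {n d : ℕ} {M : Type v} [AddCommGroup M] (hd : Bd n d)
    (f : MulAut (FreeGroup (Fin n)) →* (M ≃ₗ[ℤ] M))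
    (h : SmallChain.{u} d f ∨ SmallAscending.{u} d f ∨ SmallDescending.{u} d f) :
    DRel (rho f) := by
  have h14 := hd.card
  have h7 : 7 ≤ Fintype.card (Fin n) := by
    rw [Fintype.card_fin]
    omega
  rcases h with ⟨r, c, h0, hr, h1, h2⟩ | h | h
  · exact Pool.Agent.U181.SC.chn h7 (rho f) r c h0 hr h1 fun i hi => kl_of hd f (h2 i hi).2
  · apply Pool.Agent.U181.SC.asc h7
    intro S hS hne
    obtain ⟨T, h1, h2, h3⟩ := h S hS hne
    exact ⟨T, h1, h2, kl_of hd f h3⟩
  · apply Pool.Agent.U181.SC.desc h7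
    intro T hT hne
    obtain ⟨S, h1, h2, h3⟩ := h T hT hne
    exact ⟨S, h1, h2, kl_of hd f h3⟩

theorem eq_eAut {n : ℕ} {i j : Fin n} {τ : MulAut (FreeGroup (Fin n))}
    (h : IsTransvection i j τ) : τ = eAut ((i, true) : Lt (Fin n)) (j, true) := by
  obtain ⟨h1, h2, h3⟩ := h
  apply MulEquiv.toMonoidHom_injective
  apply FreeGroup.ext_hom
  intro k
  show τ (FreeGroup.of k) = eAut ((i, true) : Lt (Fin n)) (j, true) (FreeGroup.of k)
  rw [aut_R h1]
  by_cases hk : k = i
  · subst hk
    rw [if_pos rfl, h2]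
  · rw [if_neg hk, h3 k hk]

/-- Let `n` and `m > 0` be natural numbers. There is a characteristic subgroup `C` of finite index
in `F_n` with the following property. Let `d < binom (n / 2 - 5) 2`, or `48 ≤ n` and
`d < binom (n - 6) 2`, and let `f` be an action of `Aut(F_n)` on an abelian group `M` of arbitrary
size which has a finite chain of invariant subgroups whose factors are sections of modules with
`d` generators over commutative rings with a linear action of `Aut(F_n)`; or more generally every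
proper invariant subgroup `S` of `M` lies in a larger invariant subgroup `T` such that `T / S` is
such a section; or every non-zero invariant subgroup `T` contains a smaller invariant subgroup `S`
such that `T / S` is such a section. Then
(1) `(f τ - 1) (f τ' - 1) = 0` for transvections `τ` and `τ'` with disjoint supports,
(2) `f` kills the automorphisms acting trivially on `F_n / γ_3(F_n)`,
(3) if `m` kills `M`, or `f τ ^ m = 1` for the transvections `τ`, or the image of `f` is finite and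
`m` kills the torsion of `M`, then the image of `f` is finite and the kernel of `f` is a congruence
subgroup with respect to `C`, also in `Out(F_n)` if `f` kills the inner automorphisms. -/
theorem result :
    ∀ n m : ℕ, 0 < m → ∃ C : Subgroup (FreeGroup (Fin n)), C.Characteristic ∧ C.FiniteIndex ∧
      ∀ d : ℕ, (d < (n / 2 - 5).choose 2 ∨ (48 ≤ n ∧ d < (n - 6).choose 2)) →
        ∀ (M : Type v) [AddCommGroup M] (f : MulAut (FreeGroup (Fin n)) →* (M ≃ₗ[ℤ] M)),
          (SmallChain.{u} d f ∨ SmallAscending.{u} d f ∨ SmallDescending.{u} d f) →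
          (∀ (i j k l : Fin n) (τ τ' : MulAut (FreeGroup (Fin n))), IsTransvection i j τ →
            IsTransvection k l τ' → i ≠ k → i ≠ l → j ≠ k → j ≠ l →
            ∀ v : M, f τ (f τ' v - v) - (f τ' v - v) = 0) ∧
          (∀ ψ, TrivialMod ⁅⁅(⊤ : Subgroup (FreeGroup (Fin n))),
            (⊤ : Subgroup (FreeGroup (Fin n)))⁆, (⊤ : Subgroup (FreeGroup (Fin n)))⁆ ψ →
            f ψ = 1) ∧
          (((∀ x : M, m • x = 0) ∨ (∀ i j τ, IsTransvection i j τ → f τ ^ m = 1) ∨
              (Finite f.range ∧ ∀ x : M, IsOfFinAddOrder x → m • x = 0)) →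
            CongruenceFor C f.ker) := by
  intro n m hm0
  have : NeZero m := ⟨hm0.ne'⟩
  have : NeZero 3 := ⟨by norm_num⟩
  have hC : (CC n m ⊓ CC n 3).Characteristic := char_inf CC_char CC_char
  have hf1 : (CC n m).FiniteIndex := CC_fin
  have hf2 : (CC n 3).FiniteIndex := CC_fin
  have hfi : (CC n m ⊓ CC n 3).FiniteIndex := inferInstance
  refine ⟨CC n m ⊓ CC n 3, hC, hfi, ?_⟩
  intro d hd M _ f hch
  have hd' : Bd n d := hd
  have h14 := hd'.card
  have H : DRel (rho f) := drel hd' f hch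
  have hcard : Fintype.card (Fin n) = n := Fintype.card_fin n
  have S : SRel (rho f) := H.srel (by omega)
  have : Nonempty (Fin n) := ⟨⟨0, by omega⟩⟩
  have R := rel_aut (α := Fin n)
  set ρ := rho f with hρdef
  have hρ : ∀ (φ : MulAut (FreeGroup (Fin n))) (v : M), ρ φ v = f φ v := fun _ _ => rfl
  have hf1 : ∀ ψ : MulAut (FreeGroup (Fin n)), ρ ψ = 1 → f ψ = 1 := by
    intro ψ h
    apply LinearEquiv.ext
    intro v
    rw [← hρ, h]
    rfl
  refine ⟨?_, ?_, ?_⟩
  · intro i j k l τ τ' h1 h2 h3 h4 h5 h6 v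
    have e1 := eq_eAut h1
    have e2 := eq_eAut h2
    subst e1
    subst e2
    have h7 := H.dj (i, true) (j, true) (k, true) (l, true) h1.1 h3 h4 h5 h6 h2.1
    exact congrArg (fun φ : AddMonoid.End M => φ v) h7
  · intro ψ hψ
    have m1 := mg_of_lcs (p := 0) hψ
    have m2 := mg_of_lcs (p := 3) hψ
    have hS : ψ ∈ Sg (Fin n) := mem_Sg (R := ZMod 3) (by decide) m2
    exact hf1 ψ (triv_mod S (by omega) (m := 0) (fun x a _ => by
      rw [Nat.cast_zero, zero_smul]) hS m1)
  intro hcase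
  -- powers of the transvections
  have hpow : ∀ k : ℕ, (∀ i j τ, IsTransvection i j τ → f τ ^ k = 1) →
      ∀ x a : Lt (Fin n), x.1 ≠ a.1 → (k : ℤ) • N ρ x a = 0 := by
    intro k hk x a hxa
    have hij : (⟨0, by omega⟩ : Fin n) ≠ ⟨1, by omega⟩ := by
      intro h
      have := congrArg Fin.val h
      simp at this
    set i : Fin n := ⟨0, by omega⟩
    set j : Fin n := ⟨1, by omega⟩
    have h0 : f (eAut ((i, true) : Lt (Fin n)) (j, true)) ^ k = 1 := by
      apply hk i j
      refine ⟨hij, ?_, ?_⟩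
      · rw [aut_R hij, if_pos rfl]
      · intro l hl
        rw [aut_R hij, if_neg hl]
    obtain ⟨s1, c1, -⟩ := sp_step (1 : SP (Fin n)) (i, true) x
    obtain ⟨s2, c2, d2⟩ := sp_step s1 (j, true) a
    have c3 : (s2 : Equiv.Perm (Lt (Fin n))) (i, true) = x := by
      rw [d2 _ hij (by rw [c1]; exact hxa), c1]
    have h3 := R.e0 s2 (i, true) (j, true)
    rw [c2, c3] at h3
    have h1 : f (eAut x a) ^ k = 1 := by
      rw [← h3, map_mul, map_mul, map_inv, conj_pow, h0, mul_one, mul_inv_cancel]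
    have h2 : ρ (eAut x a) ^ k = 1 := by
      have : ρ (eAut x a) ^ k = ρ (eAut x a ^ k) := (map_pow ρ _ _).symm
      rw [this]
      apply AddMonoidHom.ext
      intro v
      show f (eAut x a ^ k) v = v
      rw [map_pow, h1]
      rfl
    rw [rho_eq, one_add_pow (S.sq x a hxa)] at h2
    exact left_eq_add.1 h2.symm
  have happ : ∀ (k : ℕ) (φ : AddMonoid.End M) (v : M), ((k : ℤ) • φ) v = k • φ v := by
    intro k φ v
    show (k : ℤ) • φ v = k • φ v
    rw [natCast_zsmul]
  have hmN : ∀ x a : Lt (Fin n), x.1 ≠ a.1 → (m : ℤ) • N ρ x a = 0 := by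
    rcases hcase with h | h | ⟨hfin, h⟩
    · intro x a _
      exact AddMonoidHom.ext fun v => (happ m (N ρ x a) v).trans (h _)
    · exact hpow m h
    · intro x a hxa
      have hk : ∀ i j τ, IsTransvection i j τ → f τ ^ Nat.card f.range = 1 := by
        intro i j τ _
        have h2 : (⟨f τ, τ, rfl⟩ : f.range) ^ Nat.card f.range = 1 := pow_card_eq_one'
        exact congrArg Subtype.val h2
      have h1 := hpow _ hk x a hxa
      refine AddMonoidHom.ext fun v => (happ m (N ρ x a) v).trans (h _ ?_)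
      rw [isOfFinAddOrder_iff_nsmul_eq_zero]
      refine ⟨Nat.card f.range, Nat.card_pos, ?_⟩
      exact (happ _ (N ρ x a) v).symm.trans (congrArg (fun φ : AddMonoid.End M => φ v) h1)
  refine congruence_of hC hfi fun ψ hψ => ?_
  have m1 := mg_of_mem (p := m) (ψ := ψ) fun x => (hψ x).1
  have m2 := mg_of_mem (p := 3) (ψ := ψ) fun x => (hψ x).2
  have hS : ψ ∈ Sg (Fin n) := mem_Sg (R := ZMod 3) (by decide) m2
  exact hf1 ψ (triv_mod S (by omega) hmN hS m1)

end Pool.Agent.Results.MP_181555_al.SmallCompositionFactors
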