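import Pool.Agent.U670.CV.Fin

/-!
# The congruence topology on the virtually abelian subgroups of `Out (F_n)`

Let `F` be the free group of rank `n ≥ 2` and let `A` be a finitely generated virtually abelian subgroup
of `Out (F)`. (By the theorem of Bestvina, Feighn and Handel every subgroup of `Out (F)` without
nonabelian free subgroups is of this form.) For a characteristic subgroup `K` of finite index of `F` let
`Γ(K)` be the kernel of `Out (F) → Out (F / K)`.

(1) Every subgroup `V` of finite index of `A` contains `A ∩ Γ(K)` for some `K`: the congruence topology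
of `Out (F)` induces on `A` the full profinite topology. In particular the restriction to `A` of every
finite quotient of `Out (F)` factors through the image of `A` in `Out (F / K)` for some `K`.

(2) `A` is closed in the congruence topology: for every `φ` in `Out (F)` which is not in `A` there is a
`K` such that the image of `φ` in `Out (F / K)` is not in the image of `A`.

Proof. Let `P_c` be the group of the functions `F → ℤ` which are polynomial of degree less than `c` (all
`c`-fold differences vanish) and are constant on conjugacy classes. It is finitely generated and free,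
and `Out (F)` acts on it; the elements of `Γ(K)` act trivially modulo `m` for a suitable `K`. The kernels
in `A` (abelian) of the actions on `P_c`, `c ≥ 2`, form a chain with torsion-free quotients; the
intersection is trivial: the functions `g ↦` coefficient of `t^k` of the trace of `ρ(g)`, `ρ` a
representation `x_i ↦ 1 + t Y_i` with `Y_i² = 0`, separate a cyclically reduced product of `s` syllables
from all products of fewer syllables, and this is enough to show that an automorphism which fixes all
these functions is inner. So `A` acts faithfully on some `P_c`. Now let `R` be a commutative subring of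
`End (P_c)` which contains the image of `A`. For commutative rings `R` which are finite over `ℤ` one
shows that every subgroup of finite index of a finitely generated group of units contains the elements
which are `1` modulo `m`, for some `m` (Chevalley): for the unipotent units by the filtration by the
powers of the nilradical, for the units all of whose conjugates have absolute value one it is elementary,
and the squares of the absolute values of the conjugates are positive units of real number fields; a
positive unit of a real number field `K` which is a `2N`-th power modulo all primes is an `N`-th power in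
`K` (Chebotarev and complex conjugation). The extension to virtually abelian groups and (2) are formal.
-/

set_option autoImplicit false

namespace Pool.Agent.Results.MP_181555_al.VirtuallyAbelianSubgroups

open Pool.Agent.U670.CV

/-- The outer automorphism group: `Inn G` is the range of `MulAut.conj`. -/
abbrev Out (G : Type) [Group G] : Type := MulAut G ⧸ Inn G

/-- The outer automorphism `a` induces the trivial outer automorphism of `G / K`: for some automorphism
`φ` in the class `a` and some `g` we have `φ x = g x g⁻¹` modulo `K` for all `x`. (For `K`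
characteristic this holds for one automorphism in the class if and only if it holds for all.) -/
def InnerMod {G : Type} [Group G] (K : Subgroup G) (a : Out G) : Prop :=
  ∃ φ : MulAut G, (QuotientGroup.mk φ : Out G) = a ∧ ∃ g : G, ∀ x, φ x * (g * x * g⁻¹)⁻¹ ∈ K

/-- All automorphisms in the class. -/
theorem InnerMod.all {G : Type} [Group G] {K : Subgroup G} [hK : K.Normal] {a : Out G}
    (h : InnerMod K a) (ψ : MulAut G) (hψ : (QuotientGroup.mk ψ : Out G) = a) :
    ∃ g : G, ∀ x, ψ x * (g * x * g⁻¹)⁻¹ ∈ K := by
  obtain ⟨φ, hφ, g, hg⟩ := h
  have h1 : (QuotientGroup.mk ψ : Out G) = QuotientGroup.mk φ := hψ.trans hφ.symm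
  have h2 : ψ * φ⁻¹ ∈ Inn G := by
    have h3 := (innNormal G).conj_mem _ (QuotientGroup.eq.1 h1.symm) φ
    have h4 : φ * (φ⁻¹ * ψ) * φ⁻¹ = ψ * φ⁻¹ := by group
    rwa [h4] at h3
  obtain ⟨u, hu⟩ := h2
  refine ⟨u * g, fun x => ?_⟩
  have h5 : ψ x = u * φ x * u⁻¹ := by
    have h6 := DFunLike.congr_fun hu (φ x)
    rw [MulAut.conj_apply, MulAut.mul_apply] at h6
    have h7 : (φ⁻¹ : MulAut G) (φ x) = x := by
      rw [← MulAut.mul_apply, inv_mul_cancel, MulAut.one_apply]
    rw [h7] at h6
    exact h6.symm
  have h8 : ψ x * (u * g * x * (u * g)⁻¹)⁻¹ = u * (φ x * (g * x * g⁻¹)⁻¹) * u⁻¹ := by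
    rw [h5]
    group
  rw [h8]
  exact hK.conj_mem _ (hg x) u

/-- The subgroup `A` is virtually abelian: some subgroup of finite index is commutative. -/
def VirtuallyAbelian {Γ : Type} [Group Γ] (A : Subgroup Γ) : Prop :=
  ∃ B ≤ A, B.relIndex A ≠ 0 ∧ ∀ x ∈ B, ∀ y ∈ B, x * y = y * x

theorem mem_of_innerMod {G : Type} [Group G] {K : Subgroup G} (hK : K.Characteristic) {a : Out G}
    (h : InnerMod K a) : a ∈ (actK K).map (QuotientGroup.mk' (Inn G)) := by
  obtain ⟨φ, rfl, g, hg⟩ := h
  refine ⟨(MulAut.conj g)⁻¹ * φ, ?_, ?_⟩
  · intro x
    have h3 : ((MulAut.conj g)⁻¹ * φ : MulAut G) x * x⁻¹ =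
        (MulAut.conj g)⁻¹ (φ x * (g * x * g⁻¹)⁻¹) := by
      rw [MulAut.mul_apply, map_mul, map_inv, MulAut.conj_inv_apply, MulAut.conj_inv_apply]
      group
    change ((MulAut.conj g)⁻¹ * φ : MulAut G) x * x⁻¹ ∈ K
    rw [h3]
    exact Subgroup.characteristic_iff_le_comap.1 hK ((MulAut.conj g)⁻¹) (hg x)
  · change (QuotientGroup.mk ((MulAut.conj g)⁻¹ * φ) : Out G) = QuotientGroup.mk φ
    rw [QuotientGroup.eq]
    refine ⟨(φ⁻¹ : MulAut G) g, ?_⟩
    ext x
    simp [MulAut.conj_apply]

/-- **The congruence topology on virtually abelian subgroups.** Let `F` be the free group of rank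
`n ≥ 2` and `A` a finitely generated virtually abelian subgroup of `Out (F)`. (1) Every subgroup of
finite index of `A` contains the elements of `A` which act trivially on `F / K`, as outer
automorphisms, for some characteristic subgroup `K` of finite index of `F`. (2) For every `φ` in
`Out (F)` which is not in `A` there is a characteristic subgroup `K` of finite index such that the
images of `φ` and of the elements of `A` in `Out (F / K)` are different: no product `a φ`, `a ∈ A`, acts
trivially on `F / K`. -/
theorem result (n : ℕ) (hn : 2 ≤ n) (A : Subgroup (Out (FreeGroup (Fin n)))) (hA : A.FG)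
    (hv : VirtuallyAbelian A) :
    (∀ V ≤ A, V.relIndex A ≠ 0 → ∃ K : Subgroup (FreeGroup (Fin n)), K.Characteristic ∧
      K.FiniteIndex ∧ ∀ a ∈ A, InnerMod K a → a ∈ V) ∧
    (∀ φ, φ ∉ A → ∃ K : Subgroup (FreeGroup (Fin n)), K.Characteristic ∧ K.FiniteIndex ∧
      ∀ a ∈ A, ¬ InnerMod K (a * φ)) := by
  have hab : (⟨0, by omega⟩ : Fin n) ≠ ⟨1, by omega⟩ := by
    intro h
    have := congrArg Fin.val h
    simp at this
  have h1 := top_CC (adm_inn (I := Fin n) hab) free_ab
  obtain ⟨B, hBA, hfi, hB⟩ := hv
  have hBfg := fg_of_relIndex hBA hA hfi
  constructor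
  · intro V hVA hV
    obtain ⟨_, ⟨K, hK1, hK2, rfl⟩, h3⟩ := h1.vopen A B hBA hBfg hB hfi V hVA hV
    exact ⟨K, hK1, hK2, fun a ha h => h3 ⟨mem_of_innerMod hK1 h, ha⟩⟩
  · intro φ hφ
    obtain ⟨_, ⟨K, hK1, hK2, rfl⟩, h3⟩ := h1.vclosed A B hBA hBfg hB hfi φ hφ
    exact ⟨K, hK1, hK2, fun a ha h => h3 a ha (mem_of_innerMod hK1 h)⟩

end Pool.Agent.Results.MP_181555_al.VirtuallyAbelianSubgroups
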